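import Mathlib
import Pool.Agent.H2.CanonMain

/-!
# Torsion-free tensor products `I ⊗ Hom(I, ω)` over rings of minimal multiplicity

`R` is a one-dimensional Noetherian local domain with canonical module `ω`.
-/

namespace Pool.Agent.Results.MP_9a1833_al.MinimalMultiplicity

universe u

open IsLocalRing TensorProduct CategoryTheory Abelian Filter Topology

/-- `ω` is a canonical module of the one-dimensional Noetherian local domain `R` with residue
field `k`: it is finitely generated, `Hom(k, ω) = 0` and `Ext^1(k, ω) ≅ k` (that is, `ω` is a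
maximal Cohen-Macaulay module of type one), and its injective dimension is finite. -/
structure IsCanonicalModule (R : Type u) [CommRing R] [IsLocalRing R]
    (ω : Type u) [AddCommGroup ω] [Module R ω] : Prop where
  finite : Module.Finite R ω
  hom_eq_zero : ∀ f : ResidueField R →ₗ[R] ω, f = 0
  ext_one : Nonempty (Ext (ModuleCat.of R (ResidueField R)) (ModuleCat.of R ω) 1 ≃ₗ[R]
    ResidueField R)
  injective_dimension : ∃ n : ℕ, HasInjectiveDimensionLT (ModuleCat.of R ω) n

/-- `e` is the Hilbert-Samuel multiplicity of the one-dimensional Noetherian local ring `R`: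
the quotients `length (R / m ^ n) / n` tend to `e`. -/
def IsMultiplicity (R : Type u) [CommRing R] [IsLocalRing R] (e : ℝ) : Prop :=
  Tendsto (fun n : ℕ => ((Module.length R (R ⧸ maximalIdeal R ^ n)).toNat : ℝ) / n) atTop (𝓝 e)

/-- The embedding dimension `dim m / m ^ 2`. -/
noncomputable def embDim (R : Type u) [CommRing R] [IsLocalRing R] : ℕ :=
  Module.finrank (ResidueField R) (CotangentSpace R)

/-- The one-dimensional ring `R` has minimal multiplicity: `e(R) = embdim R`. -/
def HasMinimalMultiplicity (R : Type u) [CommRing R] [IsLocalRing R] : Prop :=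
  IsMultiplicity R (embDim R : ℝ)

/-- `M` is torsion-free over the domain `R`. -/
def IsTorsionFreeModule (R : Type u) [CommRing R] (M : Type u) [AddCommGroup M]
    [Module R M] : Prop :=
  ∀ (r : R) (x : M), r • x = 0 → r = 0 ∨ x = 0

open Pool.Agent.H2.CanonMain Pool.Agent.H2.FlatMod in
theorem result (R : Type u) [CommRing R] [IsDomain R] [IsLocalRing R] [IsNoetherianRing R]
    (hdim : ringKrullDim R = 1) (hmin : HasMinimalMultiplicity R)
    (ω : Type u) [AddCommGroup ω] [Module R ω] (hω : IsCanonicalModule R ω)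
    (I : Ideal R) (hI : I ≠ ⊥) (htf : IsTorsionFreeModule R (I ⊗[R] (I →ₗ[R] ω))) :
    Nonempty (I ≃ₗ[R] R) ∨ Nonempty (I ≃ₗ[R] ω) := by
  have hdimle : Ring.KrullDimLE 1 R := by
    rw [Ring.krullDimLE_iff, hdim]
    rfl
  have hm : maximalIdeal R ≠ ⊥ := by
    intro h
    have h1 : IsField R := IsLocalRing.isField_iff_maximalIdeal_eq.mpr h
    have h2 := ringKrullDim_eq_zero_of_isField h1
    rw [hdim] at h2
    exact one_ne_zero h2
  have hfin : Module.Finite R ω := hω.finite
  have hT : ∀ z : R, z ≠ 0 → ∀ w : ω, z • w = 0 → w = 0 := fun z hz w hw =>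
    Pool.Agent.H2.Canon.torsionFree_of_hom_eq_zero ω hω.hom_eq_zero hz hw
  obtain ⟨θ⟩ := hω.ext_one
  obtain ⟨n₀, hn⟩ := hω.injective_dimension
  obtain ⟨F, hF0, hFm, hF⟩ := Pool.Agent.H2.MinMult.exists_min_reduction R hm hmin
  have hFm' : F ∈ ex (Pool.Agent.H2.Nagata.RX R) (maximalIdeal R) := by
    rw [Pool.Agent.H2.Nagata.maximalIdeal_RX] at hFm
    exact hFm
  have hmI : maximalIdeal R * I ≠ ⊥ := mul_ne_zero hm hI
  obtain ⟨a, ha, ha0⟩ := Submodule.exists_mem_ne_zero_of_ne_bot hmI
  have haI : a ∈ I := Ideal.mul_le_right ha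
  -- `ω ≠ 0`
  have hne : ∃ w : ω, w ≠ 0 := by
    by_contra hcon
    push Not at hcon
    have hzero : 𝟙 (ModuleCat.of R ω) = 0 := by
      ext w
      exact hcon _
    have h1 : ∀ x : Ext (ModuleCat.of R (ResidueField R)) (ModuleCat.of R ω) 1, x = 0 := by
      intro x
      rw [← Ext.comp_mk₀_id x, hzero, Ext.mk₀_zero, Ext.comp_zero]
    have h2 : (1 : ResidueField R) = 0 := by
      rw [← θ.apply_symm_apply 1, h1 (θ.symm 1), map_zero]
    exact one_ne_zero h2
  have e : (I →ₗ[R] ω) ≃ₗ[R] D ω a I := homEquivD hT haI ha0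
  have htf' : ∀ (r : R) (t : I ⊗[R] D ω a I), r • t = 0 → r = 0 ∨ t = 0 := by
    intro r t hrt
    have h1 := htf r ((LinearEquiv.lTensor I e).symm t) (by rw [← map_smul, hrt, map_zero])
    rcases h1 with h1 | h1
    · exact Or.inl h1
    · exact Or.inr ((LinearEquiv.map_eq_zero_iff _).mp h1)
  have hn0 : mu R I ≠ 0 := by
    intro h
    have := subsingleton_of_mu_eq_zero R h
    exact hI ((Submodule.subsingleton_iff_eq_bot).mp this)
  have hr0 : mu R (D ω a I) ≠ 0 := by
    intro h
    have := subsingleton_of_mu_eq_zero R h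
    obtain ⟨w, hw⟩ := hne
    have h1 : a • w ∈ D ω a I := fun b _ => ⟨b • w, by rw [smul_comm]⟩
    have h2 : (⟨a • w, h1⟩ : D ω a I) = 0 := Subsingleton.elim _ _
    exact hw (hT a ha0 w (congrArg Subtype.val h2))
  have key := mu_dichotomy (Pool.Agent.H2.Nagata.RX R) hT hn hm θ
    (fun M _ _ => Pool.Agent.H2.Nagata.length_RX R M) hFm' hF I ha ha0 htf' hn0 hr0
  rcases key with h1 | h1
  · left
    obtain ⟨b, hb⟩ := exists_span_singleton_of_mu_eq_one R h1
    have hinj : Function.Injective (LinearMap.toSpanSingleton R I b) := by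
      rw [← LinearMap.ker_eq_bot, LinearMap.ker_eq_bot']
      intro c hc
      rw [LinearMap.toSpanSingleton_apply] at hc
      have hb0 : b ≠ 0 := by
        rintro rfl
        rw [Submodule.span_zero_singleton] at hb
        have : Subsingleton I := (Submodule.subsingleton_iff R).mp
          (subsingleton_of_bot_eq_top hb)
        exact hI ((Submodule.subsingleton_iff_eq_bot).mp this)
      exact (smul_eq_zero.mp hc).resolve_right hb0
    have hsurj : Function.Surjective (LinearMap.toSpanSingleton R I b) := by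
      rw [← LinearMap.range_eq_top, LinearMap.range_toSpanSingleton, hb]
    exact ⟨(LinearEquiv.ofBijective _ ⟨hinj, hsurj⟩).symm⟩
  · right
    exact equiv_of_mu_eq_one hT hn hm θ I haI ha0 hne h1

end Pool.Agent.Results.MP_9a1833_al.MinimalMultiplicity
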